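import Pool.Agent.D0H85.Iso.Final

/-!
A compact convex set in the plane with two circular isoptics is a disk; hence the number of
circular isoptics of a compact convex set is at most one or infinite, and never two.
-/

set_option autoImplicit false

namespace Pool.Agent.Results.MP_08e0ef_gt.TwoCircularIsoptics

open Pool.Agent.D0H85.Iso Real

theorem result :
    -- the number of circular isoptics is at most one or at least three
    (∀ S : Set Pl, IsCompact S → Convex ℝ S →
      {α : ℝ | Circular S α}.encard ≤ 1 ∨ 3 ≤ {α : ℝ | Circular S α}.encard) ∧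
    -- two circular isoptics, with whatever centres, force a disk
    (∀ S : Set Pl, IsCompact S → Convex ℝ S → ∀ α β : ℝ, α ≠ β → Circular S α → Circular S β →
      ∃ c : Pl, ∃ ρ : ℝ, 0 < ρ ∧ S = Metric.closedBall c ρ ∧
        ∀ γ : ℝ, 0 < γ → γ < π → isoptic S γ = Metric.sphere c (ρ / sin (γ / 2))) := by
  refine ⟨?_, fun S hS hc α β hne hα hβ => two_isoptics hS hc hne hα hβ⟩
  intro S hS hc
  by_cases h : {α : ℝ | Circular S α}.Subsingleton
  · exact Or.inl (Set.encard_le_one_iff_subsingleton.2 h)
  · right
    rw [Set.not_subsingleton_iff] at h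
    obtain ⟨α, hα, β, hβ, hne⟩ := h
    obtain ⟨c, ρ, hρ, -, h1⟩ := two_isoptics hS hc hne hα hβ
    have hinf : {α : ℝ | Circular S α}.Infinite := by
      apply (Set.Ioo_infinite pi_pos).mono
      rintro γ ⟨h2, h3⟩
      exact ⟨h2, h3, c, _, div_pos hρ (sin_pos_of_pos_of_lt_pi (by linarith) (by linarith)),
        h1 γ h2 h3⟩
    rw [hinf.encard_eq]
    exact le_top

end Pool.Agent.Results.MP_08e0ef_gt.TwoCircularIsoptics
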